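import Pool.Agent.W601.SQ.Stm

set_option autoImplicit false
open scoped Classical Cardinal
open Filter Topology

namespace Pool.Agent.W73.SQ

open Pool.Agent.W601.SQ

noncomputable section

/-! # Points of the bidual are evaluations (`S_DD`) -/

/-- characters as functions -/
def Jh (A : Type) [CommGroup A] [TopologicalSpace A] [IsTopologicalGroup A] :
    PontryaginDual A →* (A → Circle) where
  toFun := fun χ a => χ a
  map_one' := rfl
  map_mul' := fun _ _ => rfl

theorem Jh_inj (A : Type) [CommGroup A] [TopologicalSpace A] [IsTopologicalGroup A] :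
    Function.Injective (Jh A) := by
  intro χ χ' h
  apply DFunLike.ext
  intro a
  exact congrFun h a

theorem bidual (hC : S_CHAR) (hP : S_PWG) (A : Type) [CommGroup A] [TopologicalSpace A]
    [IsTopologicalGroup A] (hA : ∀ C : Set A, IsCompact C → C.Finite)
    (Ψ : PontryaginDual (PontryaginDual A)) : ∃ g : A, ∀ χ : PontryaginDual A, Ψ χ = χ g := by
  let e := MonoidHom.ofInjective (Jh_inj A)
  have he : ∀ (y : (Jh A).range) (a : A), (e.symm y) a = (y : A → Circle) a := by
    intro y a
    have h1 : (e (e.symm y) : A → Circle) = (y : A → Circle) := by rw [e.apply_symm_apply]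
    exact congrFun h1 a
  have hcont : Continuous (fun y : (Jh A).range => e.symm y) := by
    refine hP A hA (Jh A).range (fun y => e.symm y) fun a => ?_
    have h2 : (fun y : (Jh A).range => (e.symm y) a) =
        fun y : (Jh A).range => (y : A → Circle) a :=
      funext fun y => he y a
    rw [h2]
    exact (continuous_apply a).comp continuous_subtype_val
  let Ψ0 : (Jh A).range →* Circle := (Ψ : PontryaginDual A →* Circle).comp e.symm.toMonoidHom
  have hΨ : Continuous Ψ0 := Ψ.continuous_toFun.comp hcont
  obtain ⟨s, hs⟩ := hC A (Jh A).range Ψ0 hΨ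
  refine ⟨s.prod (fun a n => a ^ n), fun χ => ?_⟩
  have h3 := hs (e χ)
  have h4 : Ψ0 (e χ) = Ψ χ := by
    show Ψ (e.symm (e χ)) = Ψ χ
    rw [e.symm_apply_apply]
  rw [h4] at h3
  rw [h3]
  unfold ch Finsupp.prod
  rw [map_prod]
  refine Finset.prod_congr rfl fun a _ => ?_
  rw [map_zpow]
  rfl

theorem dd : S_ALG → S_CHAR → S_PWG → S_CG → S_DD := by
  intro _ hC hP hG θ hθ Ψ
  exact bidual hC hP _ (fun C hc => hG θ hθ C hc) Ψ

end

end Pool.Agent.W73.SQ
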